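import Pool.Agent.R839.CircMain

/-!
# Circulant matrices with a prescribed unit determinant over a commutative finite chain ring

Let `R` be a commutative finite chain ring with maximal ideal `γR`, nilpotency index `e` and residue
field with `q = p^f` elements, and let `n = p^k m` with `p ∤ m`.  Put
`W = {∑_{i=0}^{k} p^i b_i^{p^{k-i}} : b_0, …, b_k ∈ R}` (a subring of `R`, the image of the `k`-th
ghost component of the Witt vectors of `R`).  A unit `a` of `R` is the determinant of an `n × n`
circulant matrix if and only if it lies in `W`, and then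
`c_n(R, a) = (q^{en} / |W|) ∏_{d ∣ m, d ≠ 1} (1 - q^{-ord_d(q)})^{φ(d)/ord_d(q)}`.
The size of `W` is `q^{t_0 + ⋯ + t_k}`, where `t_j` is the least exponent `s` such that
`p^j γ^{s p^{k-j}}` is of the form `∑_{i=j+1}^{k} p^i b_i^{p^{k-i}}`.
-/

namespace Pool.Agent.Results.MP_d6eb29_al.UnitDeterminants

open Pool.Agent.R839

universe u

/-- The `n × n` circulant matrix with first row `a`: every later row is the row above it, cyclically
shifted one place to the right, so that the entry `(i, j)` is `a (j - i)`, indices modulo `n`. -/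
def cir {R : Type u} {n : ℕ} [NeZero n] (a : Fin n → R) : Matrix (Fin n) (Fin n) R :=
  Matrix.of fun i j => a (j - i)

/-- `c_n(R, a)`: the number of tuples `(a₁, …, aₙ)` in `Rⁿ` with `det cir(a₁, …, aₙ) = a`. -/
noncomputable def c (n : ℕ) [NeZero n] (R : Type u) [CommRing R] (a : R) : ℕ :=
  Nat.card {v : Fin n → R // (cir v).det = a}

/-- `R` is a commutative finite chain ring, `γ` generates its maximal ideal, its nilpotency index is
`e` and its residue field has `q` elements. -/
structure IsChainRing (R : Type u) [CommRing R] (γ : R) (e q : ℕ) : Prop where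
  finite : Finite R
  total : ∀ I J : Ideal R, I ≤ J ∨ J ≤ I
  maximal : (Ideal.span {γ}).IsMaximal
  index : IsLeast {s : ℕ | 0 < s ∧ γ ^ s = 0} e
  card : Nat.card (R ⧸ Ideal.span {γ}) = q

/-- The set of the elements `∑_{i=j}^{k} p^i b_i^{p^{k-i}}`, with `b_j, …, b_k` in `R`. -/
def V (p j k : ℕ) (R : Type u) [CommRing R] : Set R :=
  {x | ∃ b : ℕ → R, x = ∑ i ∈ Finset.Ico j (k + 1), (p : R) ^ i * b i ^ p ^ (k - i)}

/-- `t_j`: the least `s` with `p^j γ^{s p^{k-j}} ∈ V p (j+1) k R`. -/
noncomputable def t (p : ℕ) {R : Type u} [CommRing R] (γ : R) (k j : ℕ) : ℕ :=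
  sInf {s | (p : R) ^ j * γ ^ (s * p ^ (k - j)) ∈ V p (j + 1) k R}

/-- `∏_{d ∣ m, d ≠ 1} (1 - q^{-ord_d(q)})^{φ(d)/ord_d(q)}`. -/
noncomputable def P (q m : ℕ) : ℚ :=
  ∏ d ∈ m.divisors.erase 1,
    (1 - ((q : ℚ) ^ orderOf (q : ZMod d))⁻¹) ^ (d.totient / orderOf (q : ZMod d))

section aux

variable {R : Type u} [CommRing R]

theorem card_gh {γ : R} {e q : ℕ} (hR : IsChainRing R γ e q) (p : ℕ) [Fact p.Prime] (k : ℕ) :
    Nat.card (Circ.gh p k R) = q ^ ∑ j ∈ Finset.range (k + 1), t p γ k j := by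
  have : Finite R := hR.finite
  have h1 := Circ.card_pgh (p := p) hR.maximal hR.index k 0
  rw [hR.card, zero_add, ← Finset.range_eq_Ico] at h1
  have h2 : Nat.card (Circ.pgh p 0 k R) = Nat.card (Circ.gh p k R) := by
    refine Nat.card_congr (Equiv.subtypeEquivRight fun x => ?_)
    rw [Circ.mem_pgh]
    simp
  rw [← h2]
  exact h1

theorem gh_top {γ : R} {e q : ℕ} (hR : IsChainRing R γ e q) {p f : ℕ} [hp : Fact p.Prime]
    (hq : q = p ^ f) (hsp : Ideal.span {(p : R)} = Ideal.span {γ}) (k : ℕ) :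
    ∀ x : R, x ∈ Circ.gh p k R := by
  have : Finite R := hR.finite
  induction k with
  | zero => exact fun x => Circ.mem_gh_zero x
  | succ k ih =>
    intro x
    have : NeZero (1 * p ^ (k + 1)) := ⟨by
      rw [one_mul]; exact pow_ne_zero _ hp.out.ne_zero⟩
    obtain ⟨b, y, hb⟩ := (Circ.main hR.maximal hR.index hR.card hq (n := 1 * p ^ (k + 1))
      (k := k + 1) (m := 1) rfl (by rw [Nat.dvd_one]; exact hp.out.ne_one)).2.2.2 x
    have h1 : γ ∈ Ideal.span {(p : R)} := by
      rw [hsp]; exact Ideal.mem_span_singleton_self γ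
    obtain ⟨z, hz⟩ := Ideal.mem_span_singleton'.mp h1
    refine Circ.mem_gh_succ.mpr ⟨b, z * y, ih _, ?_⟩
    rw [hb]
    nth_rewrite 1 [← hz]
    ring

theorem pow_eq_zero_iff' {γ : R} {e q : ℕ} (hR : IsChainRing R γ e q) (i : ℕ) :
    γ ^ i = 0 ↔ e ≤ i := by
  constructor
  · intro h
    rcases Nat.eq_zero_or_pos i with rfl | hi
    · exfalso
      rw [pow_zero] at h
      apply hR.maximal.ne_top
      rw [Ideal.eq_top_iff_one, h]
      exact zero_mem _
    · exact hR.index.2 ⟨hi, h⟩
  · intro h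
    exact pow_eq_zero_of_le h hR.index.1.2

theorem sInf_ceil {e P : ℕ} (hP : 0 < P) : sInf {s : ℕ | e ≤ s * P} = (e + P - 1) / P := by
  apply le_antisymm
  · apply Nat.sInf_le
    change e ≤ (e + P - 1) / P * P
    have h1 := Nat.div_add_mod (e + P - 1) P
    have h2 := Nat.mod_lt (e + P - 1) hP
    rw [mul_comm]
    omega
  · have hne : {s : ℕ | e ≤ s * P}.Nonempty := ⟨e, Nat.le_mul_of_pos_right e hP⟩
    have h1 : e ≤ sInf {s : ℕ | e ≤ s * P} * P := Nat.sInf_mem hne
    rw [Nat.div_le_iff_le_mul_add_pred hP, mul_comm]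
    omega

end aux

/-- **The number of circulant matrices with a prescribed unit determinant.**  Let `R` be a
commutative finite chain ring with maximal ideal `γR`, nilpotency index `e` and residue field with
`q = p^f` elements (`p` prime), and let `n = p^k m` with `p ∤ m`.  Put `W = V p 0 k R`.

1. If the unit `a` is not in `W`, then `c_n(R, a) = 0`.
2. If the unit `a` is in `W`, then `c_n(R, a) = (q^{en} / |W|) P(q, m)`.
3. `|W| = q^{t_0 + ⋯ + t_k}`.
4. If `pR = γR` (for instance if `R` is a Galois ring), then `W = R` and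
   `c_n(R, a) = q^{e(n-1)} P(q, m)` for every unit `a`.
5. If `p = 0` in `R`, then `W` is the set of the `p^k`-th powers and `|W| = q^{⌈e/p^k⌉}`.
6. If `k = 1` and `pR = γ^r R` with `r ≤ e`, then `|W| = q^{⌈r/p⌉ + e - r}`. -/
theorem result (R : Type u) [CommRing R] (γ : R) (e q : ℕ) (hR : IsChainRing R γ e q)
    (p f : ℕ) (hp : p.Prime) (hq : q = p ^ f) (n k m : ℕ) [NeZero n] (hn : n = p ^ k * m)
    (hm : ¬ p ∣ m) :
    (∀ a : R, IsUnit a → a ∉ V p 0 k R → c n R a = 0) ∧
    (∀ a : R, IsUnit a → a ∈ V p 0 k R →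
      (c n R a : ℚ) = (q : ℚ) ^ (e * n) / Nat.card (V p 0 k R) * P q m) ∧
    (Nat.card (V p 0 k R) = q ^ ∑ j ∈ Finset.range (k + 1), t p γ k j) ∧
    (Ideal.span {(p : R)} = Ideal.span {γ} → V p 0 k R = Set.univ ∧
      ∀ a : R, IsUnit a → (c n R a : ℚ) = (q : ℚ) ^ (e * (n - 1)) * P q m) ∧
    ((p : R) = 0 → V p 0 k R = {x | ∃ b : R, x = b ^ p ^ k} ∧
      Nat.card (V p 0 k R) = q ^ ((e + p ^ k - 1) / p ^ k)) ∧
    (∀ r ≤ e, k = 1 → Ideal.span {(p : R)} = Ideal.span {γ ^ r} →
      Nat.card (V p 0 k R) = q ^ ((r + p - 1) / p + (e - r))) := by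
  haveI : Fact p.Prime := ⟨hp⟩
  have : Finite R := hR.finite
  obtain ⟨h1, h2, -, -⟩ := Circ.main hR.maximal hR.index hR.card hq (n := n) (k := k) (m := m)
    (by rw [hn, mul_comm]) hm
  have hc : ∀ a : R, c n R a = Circ.cc n R a := fun a => rfl
  have hV : ∀ x : R, x ∈ V p 0 k R ↔ x ∈ Circ.gh p k R := fun x => Circ.mem_V_zero
  have hP : P q m = Circ.pr q m := rfl
  have hcard : Nat.card (V p 0 k R) = Nat.card (Circ.gh p k R) :=
    Nat.card_congr (Equiv.subtypeEquivRight hV)
  have hgpos : (Nat.card (Circ.gh p k R) : ℚ) ≠ 0 := by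
    have : 0 < Nat.card (Circ.gh p k R) := Nat.card_pos
    exact_mod_cast this.ne'
  have hcount : Nat.card (V p 0 k R) = q ^ ∑ j ∈ Finset.range (k + 1), t p γ k j := by
    rw [hcard, card_gh hR]
  have hform : ∀ a : R, IsUnit a → a ∈ V p 0 k R →
      (c n R a : ℚ) = (q : ℚ) ^ (e * n) / Nat.card (V p 0 k R) * P q m := by
    intro a ha hmem
    rw [hc, hP, hcard, div_mul_eq_mul_div, eq_div_iff hgpos]
    exact h2 a ha ((hV a).mp hmem)
  have hppos : ∀ i, 0 < p ^ i := fun i => pow_pos hp.pos i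
  refine ⟨?_, hform, hcount, ?_, ?_, ?_⟩
  · intro a ha hmem
    rw [hc]
    exact h1 a ha (fun h => hmem ((hV a).mpr h))
  · intro hsp
    have htop := gh_top hR hq hsp k
    refine ⟨Set.eq_univ_of_forall fun x => (hV x).mpr (htop x), ?_⟩
    intro a ha
    rw [hform a ha ((hV a).mpr (htop a)), hcard]
    have e1 : Nat.card (Circ.gh p k R) = q ^ e := by
      rw [← hR.card, ← Circ.card_ring hR.maximal hR.index]
      exact Nat.card_congr (Equiv.subtypeUnivEquiv htop)
    have hq0 : (q : ℚ) ≠ 0 := by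
      have : 0 < q := by rw [hq]; exact hppos f
      exact_mod_cast this.ne'
    have hn1 : 1 ≤ n := Nat.one_le_iff_ne_zero.mpr (NeZero.ne n)
    rw [e1]
    congr 1
    push_cast
    rw [div_eq_iff (pow_ne_zero _ hq0), ← pow_add]
    congr 1
    obtain ⟨n', rfl⟩ := Nat.exists_eq_add_of_le hn1
    rw [Nat.add_sub_cancel_left]; ring
  · intro h0
    refine ⟨?_, ?_⟩
    · ext x
      constructor
      · rintro ⟨b, rfl⟩
        refine ⟨b 0, ?_⟩
        rw [Finset.sum_eq_sum_Ico_succ_bot (by omega), Finset.sum_eq_zero, add_zero, pow_zero,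
          one_mul, Nat.sub_zero]
        intro i hi
        rw [Finset.mem_Ico] at hi
        rw [h0, zero_pow (by omega), zero_mul]
      · rintro ⟨b, rfl⟩
        refine ⟨fun _ => b, ?_⟩
        rw [Finset.sum_eq_sum_Ico_succ_bot (by omega), Finset.sum_eq_zero, add_zero, pow_zero,
          one_mul, Nat.sub_zero]
        intro i hi
        rw [Finset.mem_Ico] at hi
        rw [h0, zero_pow (by omega), zero_mul]
    · rw [hcount]
      congr 1
      have hVz : ∀ j, 1 ≤ j → ∀ x : R, x ∈ V p j k R ↔ x = 0 := by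
        intro j hj x
        have hz : ∀ b : ℕ → R,
            ∑ i ∈ Finset.Ico j (k + 1), (p : R) ^ i * b i ^ p ^ (k - i) = 0 := by
          intro b
          apply Finset.sum_eq_zero
          intro i hi
          rw [Finset.mem_Ico] at hi
          rw [h0, zero_pow (by omega), zero_mul]
        constructor
        · rintro ⟨b, rfl⟩; exact hz b
        · rintro rfl; exact ⟨fun _ => 0, (hz _).symm⟩
      rw [Finset.sum_range_succ', Finset.sum_eq_zero, zero_add]
      · rw [t, ← sInf_ceil (hppos k)]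
        congr 1
        ext s
        change (p : R) ^ 0 * γ ^ (s * p ^ (k - 0)) ∈ V p (0 + 1) k R ↔ e ≤ s * p ^ k
        rw [hVz (0 + 1) (by omega), pow_zero, one_mul, Nat.sub_zero, pow_eq_zero_iff' hR]
      · intro j _
        rw [t]
        apply Nat.sInf_eq_zero.mpr
        left
        change (p : R) ^ (j + 1) * γ ^ (0 * p ^ (k - (j + 1))) ∈ V p (j + 1 + 1) k R
        rw [hVz _ (by omega), h0, zero_pow (by omega), zero_mul]
  · rintro r hr rfl hsp
    rw [hcount, Finset.sum_range_succ, Finset.sum_range_one]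
    have hpm : (p : R) ∈ Ideal.span {γ ^ r} := by
      rw [← hsp]; exact Ideal.mem_span_singleton_self _
    have hγm : γ ^ r ∈ Ideal.span {(p : R)} := by
      rw [hsp]; exact Ideal.mem_span_singleton_self _
    obtain ⟨z, hz⟩ := Ideal.mem_span_singleton'.mp hpm
    obtain ⟨w, hw⟩ := Ideal.mem_span_singleton'.mp hγm
    congr 2
    · rw [t, ← sInf_ceil hp.pos]
      congr 1
      ext s
      change (p : R) ^ 0 * γ ^ (s * p ^ (1 - 0)) ∈ V p (0 + 1) 1 R ↔ r ≤ s * p
      rw [pow_zero, one_mul, Nat.sub_zero, pow_one]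
      have hV1 : ∀ x : R, x ∈ V p (0 + 1) 1 R ↔ x ∈ Ideal.span {γ ^ r} := by
        intro x
        rw [← hsp]
        constructor
        · rintro ⟨b, rfl⟩
          simp only [zero_add, Nat.Ico_succ_singleton, Finset.sum_singleton, pow_one, Nat.sub_self,
            pow_zero]
          exact Ideal.mem_span_singleton'.mpr ⟨b 1, by ring⟩
        · intro hx
          obtain ⟨y, rfl⟩ := Ideal.mem_span_singleton'.mp hx
          refine ⟨fun _ => y, ?_⟩
          simp only [zero_add, Nat.Ico_succ_singleton, Finset.sum_singleton, pow_one, Nat.sub_self,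
            pow_zero]
          ring
      rw [hV1]
      constructor
      · intro h
        by_contra hlt
        have h3 : γ ^ (s * p) ∈ Ideal.span {γ ^ (s * p + 1)} := by
          obtain ⟨y, hy⟩ := Ideal.mem_span_singleton'.mp h
          refine Ideal.mem_span_singleton'.mpr ⟨y * γ ^ (r - (s * p + 1)), ?_⟩
          rw [mul_assoc, ← pow_add, show r - (s * p + 1) + (s * p + 1) = r by omega, hy]
        have := Circ.pow_mem_span hR.maximal hR.index _ h3
        omega
      · intro h
        refine Ideal.mem_span_singleton'.mpr ⟨γ ^ (s * p - r), ?_⟩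
        rw [← pow_add]; congr 1; omega
    · rw [t]
      have hset : {s | (p : R) ^ 1 * γ ^ (s * p ^ (1 - 1)) ∈ V p (1 + 1) 1 R} =
          {s : ℕ | e - r ≤ s * 1} := by
        ext s
        change (p : R) ^ 1 * γ ^ (s * p ^ (1 - 1)) ∈ V p (1 + 1) 1 R ↔ e - r ≤ s * 1
        have hV2 : ∀ x : R, x ∈ V p (1 + 1) 1 R ↔ x = 0 := by
          intro x
          constructor
          · rintro ⟨b, rfl⟩; simp
          · rintro rfl; exact ⟨fun _ => 0, by simp⟩
        rw [hV2, Nat.sub_self, pow_zero, mul_one, pow_one]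
        constructor
        · intro h
          have h3 : γ ^ (r + s) = 0 := by
            rw [pow_add, ← hw, mul_assoc, h, mul_zero]
          have := (pow_eq_zero_iff' hR _).mp h3
          omega
        · intro h
          have h3 : γ ^ (r + s) = 0 := (pow_eq_zero_iff' hR _).mpr (by omega)
          rw [← hz, mul_assoc, ← pow_add, h3, mul_zero]
      rw [hset, sInf_ceil Nat.one_pos]
      simp

end Pool.Agent.Results.MP_d6eb29_al.UnitDeterminants
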